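import Pool.Agent.H638.IB.Final

/-! # MP_5ac201_gt, Q1: iterated intersection bodies converge to the Euclidean ball

For `n ≥ 3` the iterated intersection bodies `I^m K` of every origin-symmetric convex body `K` in
`ℝ^n` converge to the Euclidean ball in the Banach-Mazur distance, and the convergence is uniform
over all `K`. -/

set_option autoImplicit false

open MeasureTheory Set Filter Topology Metric
open scoped Pointwise

namespace Pool.Agent.Results.MP_5ac201_gt.UniformConvergence

/-- Euclidean `n`-space. -/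
abbrev E (n : ℕ) : Type := EuclideanSpace ℝ (Fin n)

/-- The closed Euclidean unit ball. -/
def unitBall (n : ℕ) : Set (E n) := closedBall 0 1

/-- Origin-symmetric convex bodies: compact, convex, with nonempty interior and `K = -K`. -/
structure IsSymConvexBody {n : ℕ} (K : Set (E n)) : Prop where
  isCompact : IsCompact K
  convex : Convex ℝ K
  interior_nonempty : (interior K).Nonempty
  neg_mem : ∀ x ∈ K, -x ∈ K

/-- The hyperplane through the origin orthogonal to `u`. -/
noncomputable abbrev hyp {n : ℕ} (u : E n) : Submodule ℝ (E n) := (ℝ ∙ u)ᗮ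

/-- Lebesgue measure of the hyperplane `hyp u`. -/
noncomputable abbrev hypVol {n : ℕ} (u : E n) : Measure (hyp u) := volume

/-- The `(n-1)`-dimensional volume of the section of `K` by the hyperplane through the origin
orthogonal to `u`. -/
noncomputable def secVol {n : ℕ} (K : Set (E n)) (u : E n) : ℝ :=
  (hypVol u {y : hyp u | (y : E n) ∈ K}).toReal

/-- The intersection body: the star body whose radial function is `secVol K` on unit vectors. -/
def interBody {n : ℕ} (K : Set (E n)) : Set (E n) :=
  {x | ∃ u : E n, ‖u‖ = 1 ∧ ∃ r : ℝ, 0 ≤ r ∧ r ≤ secVol K u ∧ x = r • u}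

/-- The set of the `l ≥ 1` such that `B ⊆ T A ⊆ l B` for some invertible linear map `T`. -/
def bmSet {n : ℕ} (A B : Set (E n)) : Set ℝ :=
  {l : ℝ | 1 ≤ l ∧ ∃ T : E n ≃ₗ[ℝ] E n, B ⊆ T '' A ∧ T '' A ⊆ l • B}

/-- The Banach-Mazur distance. -/
noncomputable def bmDist {n : ℕ} (A B : Set (E n)) : ℝ := sInf (bmSet A B)

theorem body_iff {n : ℕ} (K : Set (E n)) : IsSymConvexBody K ↔ Pool.Agent.H638.IB.Body K :=
  ⟨fun h => ⟨h.1, h.2, h.3, h.4⟩, fun h => ⟨h.1, h.2, h.3, h.4⟩⟩

/-- Let `n ≥ 3`. (1) For every origin-symmetric convex body `K` in `ℝ^n` the Banach-Mazur distance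
of the `m`-th iterated intersection body `I^m K` to the Euclidean unit ball tends to `1`.
(2) The convergence is uniform: for every `ε > 0` there is an `M` such that for all `m ≥ M` and all
origin-symmetric convex bodies `K`, the set `I^m K` is an origin-symmetric convex body and there is
an invertible linear map `T` with `B ⊆ T (I^m K) ⊆ (1 + ε) B`. -/
theorem result {n : ℕ} (hn : 3 ≤ n) :
    (∀ K : Set (E n), IsSymConvexBody K →
      Tendsto (fun m : ℕ => bmDist (interBody^[m] K) (unitBall n)) atTop (𝓝 1)) ∧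
    ∀ ε : ℝ, 0 < ε → ∃ M : ℕ, ∀ m : ℕ, M ≤ m → ∀ K : Set (E n), IsSymConvexBody K →
      IsSymConvexBody (interBody^[m] K) ∧ 1 + ε ∈ bmSet (interBody^[m] K) (unitBall n) := by
  constructor
  · intro K hK
    exact Pool.Agent.H638.IB.main_tendsto Pool.Agent.H638.IB.UNI_final hn K ((body_iff K).1 hK)
  · intro ε hε
    obtain ⟨N, rfl⟩ : ∃ N, n = N + 1 := ⟨n - 1, by omega⟩
    obtain ⟨M, hM⟩ := Pool.Agent.H638.IB.UNI_final N (by omega) ε hε
    refine ⟨M, fun m hm K hK => ?_⟩
    obtain ⟨h1, T, h2, h3⟩ := hM m hm K ((body_iff K).1 hK)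
    refine ⟨(body_iff _).2 h1, by linarith, T, h2, ?_⟩
    unfold unitBall
    rw [Pool.Agent.H638.IB.smul_ball (1 + ε) (by linarith)]
    exact h3

end Pool.Agent.Results.MP_5ac201_gt.UniformConvergence
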